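import Pool.Agent.H72.NS.Ham

/-!
# MP_68f289_gt: chains of normal subgroups of the group of Hamiltonian homeomorphisms of the ball

`H = HamGroup n` is the group of the frozen statement S13311 (here for every `n ≥ 1`): the
homeomorphisms of `ℝ^{2n}` supported in a compact subset of the open unit ball which are uniform limits
of time one maps of smooth Hamiltonian flows supported in the same compact set. For `0 < r < 1` let
`H(r)` be the group of Hamiltonian homeomorphisms of the open ball of radius `r` (the conjugates of
the elements of `H` by the dilation `x ↦ r x`), and `N(r)` the normal subgroup of `H` generated by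
`H(r)`.

Theorem. Either `H` is simple or `H` is the union of normal subgroups `N_t`, `t ∈ ℝ`, with
`N_s < N_t` for `s < t`. So `H` is simple if and only if it is not the union of an increasing sequence
of proper normal subgroups, if and only if it is the normal closure of a finite set, if and only if
its normal subgroups satisfy the ascending chain condition, or the descending chain condition, or are
less than continuum many. The subgroups `N(r)` are equal for `r ≤ σ` and strictly increasing for
`σ ≤ r < 1`, for some `σ` which is `1` if and only if some `N(r)` is equal to `H`.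

Outline of the proof. If `N(a) = N(b)` for some `a < b` then conjugation by dilations shows that
`N(r)` is constant for `r ≤ b`; this gives `σ`. As `H` is the union of the groups `H(r)`, `r < 1`,
either `N(r) = H` for some `r < 1` or the family `N(r)`, `σ < r < 1`, has the required properties. In
the first case `H` is simple if it is perfect (`Pool/Graph/.../Q175/HU`), and if it is not, its
abelianization is uncountable (`Pool/Graph/.../Q175/HW`); an uncountable abelian group has a
homomorphism to the group of finitely supported functions on `ℚ` with values in `ℝ/ℤ` the image of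
which contains functions with support `{q}` for all `q`; the elements which are mapped to functions
with support in `(-∞, t)` form a chain.
-/

set_option autoImplicit false

open Cardinal

namespace Pool.Agent.Results.MP_68f289_gt.ChainDichotomy

/-- `ℝ^{2n}`, with coordinates `(x, y)` -/
abbrev E (n : ℕ) : Type := (Fin n → ℝ) × (Fin n → ℝ)

/-- the open unit ball -/
def ball (n : ℕ) : Set (E n) := {p | ∑ i, ((p.1 i) ^ 2 + (p.2 i) ^ 2) < 1}

/-- the directional derivative of `h` at `p` in the direction `v` -/
noncomputable def dirDeriv {n : ℕ} (h : E n → ℝ) (p v : E n) : ℝ := fderiv ℝ h p v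

/-- the unit vector of the coordinate `x i` -/
def ex {n : ℕ} (i : Fin n) : E n := (Pi.single i 1, 0)

/-- the unit vector of the coordinate `y i` -/
def ey {n : ℕ} (i : Fin n) : E n := (0, Pi.single i 1)

/-- the Hamiltonian vector field `(∂h/∂y, -∂h/∂x)` of `h` -/
noncomputable def field {n : ℕ} (h : E n → ℝ) (p : E n) : E n :=
  (fun i => dirDeriv h p (ey i), fun i => -dirDeriv h p (ex i))

/-- `u` is the time one map of the flow `ψ` of a smooth time dependent Hamiltonian `H` supported in a
compact subset of the open unit ball -/
def IsTimeOneMap {n : ℕ} (u : E n → E n) : Prop :=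
  ∃ H : ℝ → E n → ℝ, ContDiff ℝ ((⊤ : ℕ∞) : WithTop ℕ∞) (Function.uncurry H) ∧
    (∃ K : Set (E n), IsCompact K ∧ K ⊆ ball n ∧ ∀ t x, x ∉ K → H t x = 0) ∧
    ∃ ψ : ℝ → E n → E n, (∀ x, ψ 0 x = x) ∧
      (∀ t x, HasDerivAt (fun s => ψ s x) (field (H t) (ψ t x)) t) ∧ ∀ x, u x = ψ 1 x

/-- homeomorphisms of `ℝ^{2n}` -/
abbrev Homeo (n : ℕ) : Type := E n ≃ₜ E n

/-- the homeomorphisms supported in a compact subset `K` of the open unit ball that are uniform
limits of Hamiltonian diffeomorphisms supported in `K` -/
def hamBar (n : ℕ) : Set (Homeo n) :=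
  {φ | ∃ K : Set (E n), IsCompact K ∧ K ⊆ ball n ∧ (∀ x, x ∉ K → φ x = x) ∧
    ∃ u : ℕ → Homeo n, (∀ k x, x ∉ K → u k x = x) ∧ (∀ k, IsTimeOneMap (u k)) ∧
      TendstoUniformly (fun k x => u k x) (fun x => φ x) Filter.atTop}

/-- the group of compactly supported Hamiltonian homeomorphisms of the open unit ball -/
def HamGroup (n : ℕ) : Type := ↥(Subgroup.closure (hamBar n))

noncomputable instance (n : ℕ) : Group (HamGroup n) :=
  inferInstanceAs (Group ↥(Subgroup.closure (hamBar n)))

/-- the homeomorphism `φ` as a map -/
def HamGroup.map {n : ℕ} (φ : HamGroup n) : E n → E n := (φ.1 : Homeo n)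

/-- the group `H(r)` of Hamiltonian homeomorphisms of the open ball of radius `r`: the conjugates of
the elements of the group by the dilation `x ↦ r x` -/
def inBall (n : ℕ) (r : ℝ) : Set (HamGroup n) :=
  {g | ∃ φ : HamGroup n, ∀ x, g.map (r • x) = r • φ.map x}

/-- the normal subgroup `N(r)` generated by `H(r)` -/
noncomputable def normalBall (n : ℕ) (r : ℝ) : Subgroup (HamGroup n) := Subgroup.normalClosure (inBall n r)

/-- the group is the union of normal subgroups `N_t`, `t ∈ ℝ`, with `N_s < N_t` for `s < t` -/
def IsUnionOfRealChain (G : Type) [Group G] : Prop :=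
  ∃ N : ℝ → Subgroup G, (∀ t, (N t).Normal) ∧ StrictMono N ∧ ∀ g, ∃ t, g ∈ N t

/-- the group is the union of an increasing sequence of proper normal subgroups -/
def IsUnionOfSequence (G : Type) [Group G] : Prop :=
  ∃ N : ℕ → Subgroup G, (∀ k, (N k).Normal) ∧ Monotone N ∧ (∀ k, N k ≠ ⊤) ∧ ∀ g, ∃ k, g ∈ N k

theorem timeOne_iff {n : ℕ} (u : Homeo n) : IsTimeOneMap u ↔ Pool.Agent.Y453.HB.IsHam u := Iff.rfl

theorem closure_eq (n : ℕ) : Subgroup.closure (hamBar n) = Pool.Agent.Y453.HB.HamBar n := rfl

/-- Let `n ≥ 1` and let `H` be the group of compactly supported Hamiltonian homeomorphisms of the open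
unit ball of `ℝ^{2n}`.

(1) `H` is simple, or it is the union of normal subgroups `N_t`, `t ∈ ℝ`, with `N_s < N_t` for `s < t`.

(2) The following are equivalent: `H` is simple; `H` is not the union of an increasing sequence of
proper normal subgroups; `H` is the normal closure of a finite set; the normal subgroups of `H`
satisfy the ascending chain condition; they satisfy the descending chain condition; there are fewer
than continuum many.

(3) There is `0 ≤ σ ≤ 1` such that the normal subgroups `N(r)`, `0 < r < 1`, generated by the
Hamiltonian homeomorphisms of the ball of radius `r`, are equal to each other for `r ≤ σ`, and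
`N(r) < N(s)` for `σ ≤ r < s`; here `σ = 1` if and only if `N(r) = H` for some `r < 1`. -/
theorem result (n : ℕ) (hn : 0 < n) :
    (IsSimpleGroup (HamGroup n) ∨ IsUnionOfRealChain (HamGroup n)) ∧
    [IsSimpleGroup (HamGroup n),
      ¬ IsUnionOfSequence (HamGroup n),
      ∃ Z : Finset (HamGroup n), Subgroup.normalClosure (Z : Set (HamGroup n)) = ⊤,
      WellFoundedGT {N : Subgroup (HamGroup n) // N.Normal},
      WellFoundedLT {N : Subgroup (HamGroup n) // N.Normal},
      #{N : Subgroup (HamGroup n) // N.Normal} < 𝔠].TFAE ∧
    ∃ σ : ℝ, 0 ≤ σ ∧ σ ≤ 1 ∧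
      (∀ r s : ℝ, 0 < r → r ≤ s → s ≤ σ → s < 1 → normalBall n r = normalBall n s) ∧
      (∀ r s : ℝ, 0 < r → σ ≤ r → r < s → s < 1 → normalBall n r < normalBall n s) ∧
      (σ = 1 ↔ ∃ r : ℝ, 0 < r ∧ r < 1 ∧ normalBall n r = ⊤) := by
  have h1 := Pool.Agent.H72.NS.ham_alt (n := n) hn
  exact ⟨h1, Pool.Agent.H72.NS.tfae_of_nchain h1, Pool.Agent.H72.NS.ham_th (n := n) hn⟩

end Pool.Agent.Results.MP_68f289_gt.ChainDichotomy
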